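import Pool.Agent.H4.FV.OddT

/-!
The centre of the standard algebra (helper77 for helper4).
-/

set_option autoImplicit false
set_option linter.all false

namespace Pool.Agent.H77.FV

open Pool.Agent.H4.FV.Odd

/-- the index of the vertex -/
def vx {Γ : ℕ → ℕ → Prop} : Bs Γ → ℕ
  | Sum.inl (v, _) => v
  | Sum.inr _ => 0

theorem t_ct (p : ℕ) [Fact p.Prime] (Γ : ℕ → ℕ → Prop) : T_ct p Γ := by
  classical
  intro x
  constructor
  · intro hx
    ext b
    rw [Finsupp.zero_apply]
    by_contra hb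
    obtain ⟨n, hn⟩ := Infinite.exists_notMem_finset (x.1.support.image (vx (Γ := Γ)))
    have hfresh : ∀ (v : ℕ) (j : Fin 3), x.1 (Sum.inl (v, j)) ≠ 0 → v ≠ n := by
      intro v j h hv
      apply hn
      rw [Finset.mem_image]
      exact ⟨Sum.inl (v, j), Finsupp.mem_support_iff.2 h, hv⟩
    have hn1 : x.1 (Sum.inl (n, 1)) = 0 := by
      by_contra h
      exact hfresh n 1 h rfl
    obtain ⟨y, hy⟩ : ∃ y : SA p Γ, y = ((Finsupp.single (Sum.inl (n, 1)) 1, 0) : SA p Γ) := ⟨_, rfl⟩
    have hy1 : y.1 = Finsupp.single (Sum.inl (n, 1)) 1 := by rw [hy]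
    have h := hx y
    have h2 : (x * y).2 = 0 := by rw [h]; rfl
    rw [mul_snd, Submodule.mkQ_apply] at h2
    have h3 := (Submodule.Quotient.mk_eq_zero _).1 h2
    rw [mem_Kr] at h3
    have e1 : y.1 (Sum.inl (n, 1)) = 1 := by rw [hy1, Finsupp.single_eq_same]
    rcases b with ⟨v, j⟩ | q
    · have hv : v ≠ n := hfresh v j hb
      have e2 : y.1 (Sum.inl (v, j)) = 0 := by
        rw [hy1, Finsupp.single_eq_of_ne]
        intro h4
        have h5 := Sum.inl.inj h4
        rw [Prod.mk.injEq] at h5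
        first
          | exact hv h5.1
          | exact hv h5.1.symm
      have e3 : (tn x.1 y.1) (Sum.inl (v, j), Sum.inl (n, 1)) - (tn x.1 y.1) (Sum.inl (n, 1), Sum.inl (v, j)) =
          x.1 (Sum.inl (v, j)) := by
        rw [tn_apply, tn_apply, e1, e2, hn1]
        ring
      apply hb
      rw [← e3]
      by_cases hj : j = 0
      · subst hj
        exact h3.v' v n 1 (by decide) hv
      · exact h3.v'' v n j 1 hj (by decide)
    · have e2 : y.1 (Sum.inr q) = 0 := by
        rw [hy1, Finsupp.single_eq_of_ne]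
        intro h4
        first
          | exact Sum.inl_ne_inr h4
          | exact Sum.inr_ne_inl h4
      have e3 : (tn x.1 y.1) (Sum.inl (n, 1), Sum.inr q) - (tn x.1 y.1) (Sum.inr q, Sum.inl (n, 1)) =
          - x.1 (Sum.inr q) := by
        rw [tn_apply, tn_apply, e1, e2, hn1]
        ring
      apply hb
      have h5 : (tn x.1 y.1) (Sum.inl (n, 1), Sum.inr q) - (tn x.1 y.1) (Sum.inr q, Sum.inl (n, 1)) = 0 :=
        h3.ve (n, 1) q
      rw [e3] at h5
      exact neg_eq_zero.1 h5
  · intro hx y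
    refine Prod.ext rfl ?_
    rw [mul_snd, hx, tn_zero, map_zero]
    rfl

theorem ct : S_ct := fun p _ _ Γ => t_ct p Γ

end Pool.Agent.H77.FV
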